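import Pool.Agent.H.MP_dfa28f_co.Gr

set_option autoImplicit false

namespace Pool.Agent.Results.MP_dfa28f_co.ThreeFifths

/-- The cops, standing at `c` and about to move, can force the capture of a robber standing at `r`
after finitely many moves. -/
inductive CopsWin {V : Type} (G : SimpleGraph V) {m : ℕ} : (Fin m → V) → V → Prop
  | capture (c : Fin m → V) (r : V) (i : Fin m) (h : c i = r ∨ G.Adj (c i) r) : CopsWin G c r
  | move (c c' : Fin m → V) (r : V) (h : ∀ i, c i = c' i ∨ G.Adj (c i) (c' i))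
      (h' : ∀ r', r = r' ∨ G.Adj r r' → CopsWin G c' r') : CopsWin G c r

/-- The cop number: the least `m` such that `m` cops have a starting position that wins against
every starting vertex of the robber. -/
noncomputable def copNumber {V : Type} (G : SimpleGraph V) : ℕ :=
  sInf {m : ℕ | ∃ c : Fin m → V, ∀ r, CopsWin G c r}

theorem lose {V : Type} [DecidableEq V] (G : SimpleGraph V) (M j : ℕ) (hj : j < M)
    (h : ∀ (C : Finset V) (r : V), C.card < M → r ∉ C →
      ∃ w, G.Adj r w ∧ ∀ c ∈ C, c ≠ w ∧ ¬ G.Adj c w)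
    (c : Fin j → V) (r : V) (hw : CopsWin G c r) : ∃ i, c i = r ∨ G.Adj (c i) r := by
  induction hw with
  | capture c r i hi => exact ⟨i, hi⟩
  | move c c' r hm _ ih =>
    by_cases hr : r ∈ Finset.univ.image c'
    · obtain ⟨i, -, rfl⟩ := Finset.mem_image.1 hr
      exact ⟨i, hm i⟩
    · have hc : (Finset.univ.image c').card < M := by
        have := Finset.card_image_le (s := Finset.univ) (f := c')
        rw [Finset.card_univ, Fintype.card_fin] at this
        omega
      obtain ⟨w, w1, w2⟩ := h _ r hc hr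
      obtain ⟨i, hi⟩ := ih w (Or.inr w1)
      have := w2 (c' i) (Finset.mem_image_of_mem _ (Finset.mem_univ i))
      exact absurd hi (not_or.2 this)

theorem main (k : ℕ) (hk : 3 ≤ k) : ∃ (V : Type) (_ : Fintype V) (G : SimpleGraph V),
    G.Connected ∧ IsEmpty (SimpleGraph.pathGraph k ↪g G) ∧ 3 * (k - 1) / 5 ≤ copNumber G := by
  classical
  obtain ⟨V, hV, G, h1, h2, h3, h4⟩ := Pool.Agent.H.MP_dfa28f_co.exists_graph ((k - 1) / 5)
    ((k - 1) % 5 / 2) k (by omega) (by omega)
  have e : 3 * ((k - 1) / 5) + (k - 1) % 5 / 2 = 3 * (k - 1) / 5 := by omega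
  rw [e] at h3 h4
  refine ⟨V, hV, G, h1, h2, ?_⟩
  apply le_csInf
  · refine ⟨Fintype.card V, (Fintype.equivFin V).symm, fun r => ?_⟩
    exact CopsWin.capture _ r (Fintype.equivFin V r) (Or.inl (by simp))
  · rintro j ⟨c, hc⟩
    by_contra hj
    push Not at hj
    have hcard : (Finset.univ.image c).card < 3 * (k - 1) / 5 := by
      have := Finset.card_image_le (s := Finset.univ) (f := c)
      rw [Finset.card_univ, Fintype.card_fin] at this
      omega
    obtain ⟨r0, hr0⟩ := h3 _ hcard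
    obtain ⟨w, -, w2⟩ := h4 _ r0 hcard hr0
    obtain ⟨i, hi⟩ := lose G _ j hj h4 c w (hc w)
    exact absurd hi (not_or.2 (w2 (c i) (Finset.mem_image_of_mem _ (Finset.mem_univ i))))

theorem result :
    (∀ k : ℕ, 3 ≤ k → ∃ (V : Type) (_ : Fintype V) (G : SimpleGraph V), G.Connected ∧
      IsEmpty (SimpleGraph.pathGraph k ↪g G) ∧ 3 * (k - 1) / 5 ≤ copNumber G) ∧
    (∀ k : ℕ, k = 8 ∨ 10 ≤ k → ∃ (V : Type) (_ : Fintype V) (G : SimpleGraph V), G.Connected ∧
      IsEmpty (SimpleGraph.pathGraph k ↪g G) ∧ (k - 1) / 2 < copNumber G) := by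
  refine ⟨main, fun k hk => ?_⟩
  obtain ⟨V, hV, G, h1, h2, h3⟩ := main k (by omega)
  exact ⟨V, hV, G, h1, h2, by omega⟩

end Pool.Agent.Results.MP_dfa28f_co.ThreeFifths
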